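import Mathlib
import Pool.Agent.R180.PG4

set_option autoImplicit false

/-!
# MP_2aa405_co, Q1: a 10-vertex 5-polytope graph that is dimensionally unambiguous

The polytope is the 5-simplex with vertices `u₀, …, u₅` together with four further vertices: two of
them placed beyond two facets each (and adjacent to all `uᵢ`), two placed beyond one facet each
(adjacent to all `uᵢ` but one), the six facets used being distinct.
-/

namespace Pool.Agent.Results.MP_2aa405_co.TenVertices

open Pool.Agent.R180.PGraph Set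

/-- Euclidean `n`-space. -/
abbrev E (n : ℕ) := EuclideanSpace ℝ (Fin n)

/-- `P ⊆ ℝⁿ` is a `d`-polytope: a nonempty convex hull of finitely many points whose affine hull
has dimension `d`. -/
def IsPolytope {n : ℕ} (d : ℕ) (P : Set (E n)) : Prop :=
  (∃ s : Finset (E n), P = convexHull ℝ (s : Set (E n))) ∧ P.Nonempty ∧
    Module.finrank ℝ (vectorSpan ℝ P) = d

/-- The graph of a polytope: its vertices are the extreme points of `P`, and two of them are
adjacent when the segment joining them is a face (the set of maximizers on `P` of a linear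
functional), that is, an edge. -/
def polytopeGraph {n : ℕ} (P : Set (E n)) : SimpleGraph (P.extremePoints ℝ) where
  Adj x y := x ≠ y ∧ IsExposed ℝ P (segment ℝ (x : E n) (y : E n))
  symm := ⟨fun x y h => ⟨h.1.symm, by rw [segment_symm]; exact h.2⟩⟩
  loopless := ⟨fun x h => h.1 rfl⟩

/-- `G` is `d`-realizable: isomorphic to the graph of some `d`-polytope (in some `ℝⁿ`). -/
def Realizable (d : ℕ) {V : Type} (G : SimpleGraph V) : Prop :=
  ∃ (n : ℕ) (P : Set (E n)), IsPolytope d P ∧ Nonempty (G ≃g polytopeGraph P)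

/-- `G` is `d`-realizable and dimensionally unambiguous. -/
def Unambiguous (d : ℕ) {V : Type} (G : SimpleGraph V) : Prop :=
  Realizable d G ∧ ∀ d', d' ≠ d → ¬ Realizable d' G

/-- The graph: `0, …, 5` pairwise adjacent; `6, 7` adjacent to `0, …, 5`; `8` adjacent to
`0, 1, 2, 3, 5`; `9` adjacent to `0, 1, 2, 3, 4`; no other edges. -/
def G : SimpleGraph (Fin 10) where
  Adj v w := adjB v w = true
  symm := ⟨by decide⟩
  loopless := ⟨by decide⟩

/-! ### Impossibility in dimensions other than 5 -/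

lemma dim_eq_five (d : ℕ) (h : Realizable d G) : d = 5 := by
  classical
  obtain ⟨n, P, ⟨⟨s, hs⟩, hne, hdim⟩, ⟨e⟩⟩ := h
  let p : Fin 10 → E n := fun v => (e v : E n)
  have hinj : Function.Injective p := fun v w hvw => e.injective (Subtype.ext hvw)
  have hrange : range p = P.extremePoints ℝ := by
    ext x
    constructor
    · rintro ⟨v, rfl⟩; exact (e v).2
    · intro hx
      exact ⟨e.symm ⟨x, hx⟩, by simp [p]⟩
  have hPc : IsCompact P := by rw [hs]; exact s.finite_toSet.isCompact_convexHull ℝ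
  have hPconv : Convex ℝ P := by rw [hs]; exact convex_convexHull ℝ _
  have hhull : P = convexHull ℝ (range p) := by
    rw [hrange]
    have h1 := closure_convexHull_extremePoints hPc hPconv
    have hfin : (P.extremePoints ℝ).Finite := by rw [← hrange]; exact Set.finite_range p
    rw [(hfin.isClosed_convexHull ℝ).closure_eq] at h1
    exact h1.symm
  have hin : ∀ v, p v ∈ P := fun v => by rw [hhull]; exact subset_convexHull ℝ _ ⟨v, rfl⟩
  have hExp : Exp p := by
    intro v
    have hext : p v ∈ P.extremePoints ℝ := by rw [← hrange]; exact ⟨v, rfl⟩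
    have h1 := (hPconv.mem_extremePoints_iff_mem_sdiff_convexHull_sdiff.1 hext).2
    have h2 : p v ∉ convexHull ℝ (p '' {i | i ≠ v}) := by
      intro h2
      apply h1
      refine convexHull_mono ?_ h2
      rintro _ ⟨i, hi, rfl⟩
      exact ⟨hin i, fun h => hi (hinj h)⟩
    obtain ⟨g, u, hlt, hu⟩ := geometric_hahn_banach_closed_point (convex_convexHull ℝ _)
      (((Set.toFinite {i | i ≠ v}).image p).isClosed_convexHull ℝ) h2
    exact ⟨g, fun z hz => (hlt _ (subset_convexHull ℝ _ ⟨z, hz, rfl⟩)).trans hu⟩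
  have hG : ∀ v w, v ≠ w → (DEdge p v w ↔ adjB v w = true) := by
    intro v w hvw
    have hadj : adjB v w = true ↔ (polytopeGraph P).Adj (e v) (e w) := e.map_rel_iff.symm
    rw [hadj]
    constructor
    · intro hd
      refine ⟨fun h => hvw (e.injective h), ?_⟩
      have h1 := isExposed_of_dedge p v w hd
      rw [← hhull] at h1
      exact h1
    · rintro ⟨-, h1⟩
      have h2 : IsExposed ℝ P (segment ℝ (p v) (p w)) := h1
      rw [hhull] at h2
      exact dedge_of_isExposed p hExp v w hvw h2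
  have hspan : vectorSpan ℝ P = vectorSpan ℝ (range p) := by
    rw [hhull, ← direction_affineSpan, affineSpan_convexHull, direction_affineSpan]
  rw [hspan] at hdim
  have h4 := not_dim_le_three p hExp hG
  have h5 := dim_le_five p hExp hG
  have h6 := not_dim_four p hExp hG
  by_contra hd
  exact h6 (by omega)

/-! ### Realization in dimension 5 -/

/-- integer coordinates of the ten vertices -/
def pts : Fin 10 → Fin 5 → ℤ :=
  ![![14, 0, 0, 0, 0], ![0, 14, 0, 0, 0], ![0, 0, 14, 0, 0], ![0, 0, 0, 14, 0],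
    ![0, 0, 0, 0, 14], ![0, 0, 0, 0, 0], ![-1, -1, 4, 4, 4], ![4, 4, -1, -1, 4],
    ![3, 3, 3, 3, -1], ![3, 3, 3, 3, 3]]

/-- the ten vertices -/
noncomputable def pt (v : Fin 10) : E 5 := WithLp.toLp 2 fun i => (pts v i : ℝ)

/-- the linear functional with integer coefficients `c` -/
noncomputable def fn (c : Fin 5 → ℤ) : E 5 →L[ℝ] ℝ :=
  ∑ i, (c i : ℝ) • (EuclideanSpace.proj i : E 5 →L[ℝ] ℝ)

/-- integer value of a functional at a vertex -/
def val (c : Fin 5 → ℤ) (v : Fin 10) : ℤ := ∑ i, c i * pts v i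

lemma fn_pt (c : Fin 5 → ℤ) (v : Fin 10) : fn c (pt v) = (val c v : ℝ) := by
  simp [fn, val, pt]

/-- dehomogenization of the coefficients with respect to barycentric coordinates -/
def dh (c : Fin 6 → ℤ) : Fin 5 → ℤ := fun i => c i.castSucc - c 5

/-- coefficients exposing the vertices -/
def cV : Fin 10 → Fin 6 → ℤ :=
  ![![1, 0, 0, 0, 0, 0], ![0, 1, 0, 0, 0, 0], ![0, 0, 1, 0, 0, 0], ![0, 0, 0, 1, 0, 0],
    ![0, 0, 0, 0, 1, 0], ![0, 0, 0, 0, 0, 1], ![-1, -1, 0, 0, 0, 0], ![0, 0, -1, -1, 0, 0],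
    ![0, 0, 0, 0, -1, 0], ![0, 0, 0, 0, 0, -1]]

/-- coefficients exposing the edges `v w` with `v > w` -/
def cE (v w : Fin 10) : Fin 6 → ℤ := fun i =>
  if v.val < 6 then (if i.val = v.val ∨ i.val = w.val then 0 else -1)
  else if v = 6 then
    (if w.val < 2 then (if i.val = w.val then 1 else if i.val < 2 then -15 else 0)
      else (if i.val = w.val then 1 else if i.val < 2 then -5 else 0))
  else if v = 7 then
    (if w.val = 2 ∨ w.val = 3 then
      (if i.val = w.val then 1 else if i.val = 2 ∨ i.val = 3 then -15 else 0)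
      else (if i.val = w.val then 1 else if i.val = 2 ∨ i.val = 3 then -5 else 0))
  else if v = 8 then (if i.val = w.val then 1 else if i.val = 4 then -11 else 0)
  else (if i.val = w.val then 1 else if i.val = 5 then -11 else 0)

/-- affine relations certifying nonadjacency of `v` and `w`, `v > w` -/
def rel (v w : Fin 10) : Fin 10 → ℤ :=
  if v = 7 ∧ w = 6 then ![-3, -3, -3, -3, -8, -8, 14, 14, 0, 0]
  else if v = 8 ∧ w = 6 then ![-2, -2, -7, -7, -3, -7, 14, 0, 14, 0]
  else if v = 9 ∧ w = 6 then ![-2, -2, -7, -7, -7, -3, 14, 0, 0, 14]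
  else if v = 8 ∧ w = 7 then ![-7, -7, -2, -2, -3, -7, 0, 14, 14, 0]
  else if v = 9 ∧ w = 7 then ![-7, -7, -2, -2, -7, -3, 0, 14, 0, 14]
  else if v = 9 ∧ w = 8 then ![-6, -6, -6, -6, -2, -2, 0, 0, 14, 14]
  else if v = 8 ∧ w = 4 then ![-3, -3, -3, -3, 1, -3, 0, 0, 14, 0]
  else ![-3, -3, -3, -3, -3, 1, 0, 0, 0, 14]

set_option maxRecDepth 100000 in
lemma cV_ok : ∀ v z : Fin 10, z ≠ v → val (dh (cV v)) z < val (dh (cV v)) v := by decide

set_option maxRecDepth 100000 in
lemma cE_ok : ∀ v w : Fin 10, w < v → adjB v w = true →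
    val (dh (cE v w)) v = val (dh (cE v w)) w ∧
    ∀ z, z ≠ v → z ≠ w → val (dh (cE v w)) z < val (dh (cE v w)) v := by decide

set_option maxRecDepth 100000 in
lemma rel_ok : ∀ v w : Fin 10, w < v → adjB v w = false →
    (∑ z, rel v w z = 0) ∧ (∀ i, ∑ z, rel v w z * pts z i = 0) ∧
    (∀ z, z ≠ v → z ≠ w → rel v w z ≤ 0) ∧ (rel v w 0 < 0 ∧ (0 : Fin 10) ≠ v ∧ (0 : Fin 10) ≠ w)
      := by decide

lemma exp_pt : Exp pt := by
  intro v
  refine ⟨fn (dh (cV v)), fun z hz => ?_⟩
  rw [fn_pt, fn_pt]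
  exact_mod_cast cV_ok v z hz

lemma dedge_lt (v w : Fin 10) (hvw : w < v) : DEdge pt v w ↔ adjB v w = true := by
  constructor
  · rintro ⟨k, hk, hlt⟩
    by_contra hadj
    have hadj : adjB v w = false := by simpa using hadj
    obtain ⟨h0, h1, h2, h3, h4, h5⟩ := rel_ok v w hvw hadj
    have hr : ∑ z, (rel v w z : ℝ) • pt z = 0 := by
      ext i
      have := h1 i
      simp only [pt, WithLp.ofLp_sum, WithLp.ofLp_smul, Finset.sum_apply, Pi.smul_apply,
        smul_eq_mul, WithLp.ofLp_zero, Pi.zero_apply]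
      exact_mod_cast this
    have h6 := sum_functional pt k (fun z => (rel v w z : ℝ)) 0 hr
    rw [map_zero] at h6
    have h7 : (∑ z, (rel v w z : ℝ)) = 0 := by exact_mod_cast h0
    have h8 : ∑ z, (rel v w z : ℝ) * (k (pt z) - k (pt v)) = 0 := by
      simp only [mul_sub, Finset.sum_sub_distrib]
      rw [h6, ← Finset.sum_mul, h7]; simp
    have h9 : ∀ z ∈ Finset.univ, 0 ≤ (rel v w z : ℝ) * (k (pt z) - k (pt v)) := by
      intro z _
      by_cases hz1 : z = v
      · rw [hz1]; simp
      by_cases hz2 : z = w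
      · rw [hz2, hk]; simp
      · have := hlt z hz1 hz2
        have h10 : (rel v w z : ℝ) ≤ 0 := by exact_mod_cast h2 z hz1 hz2
        exact mul_nonneg_of_nonpos_of_nonpos h10 (by linarith)
    rw [Finset.sum_eq_zero_iff_of_nonneg h9] at h8
    have h10 := h8 0 (Finset.mem_univ _)
    have h11 := hlt 0 h4 h5
    have h12 : (rel v w 0 : ℝ) < 0 := by exact_mod_cast h3
    rcases mul_eq_zero.1 h10 with h13 | h13 <;> linarith
  · intro hadj
    obtain ⟨h1, h2⟩ := cE_ok v w hvw hadj
    refine ⟨fn (dh (cE v w)), ?_, fun z hz1 hz2 => ?_⟩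
    · rw [fn_pt, fn_pt, h1]
    · rw [fn_pt, fn_pt]
      exact_mod_cast h2 z hz1 hz2

lemma adjB_symm : ∀ v w, adjB v w = adjB w v := by decide

lemma dedge_iff (v w : Fin 10) (hvw : v ≠ w) : DEdge pt v w ↔ adjB v w = true := by
  rcases lt_or_gt_of_ne hvw with h | h
  · rw [adjB_symm v w, ← dedge_lt w v h]
    exact ⟨DEdge.symm, DEdge.symm⟩
  · exact dedge_lt v w h

lemma span_top : vectorSpan ℝ (convexHull ℝ (range pt)) = ⊤ := by
  rw [← direction_affineSpan, affineSpan_convexHull, direction_affineSpan, eq_top_iff,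
    ← (EuclideanSpace.basisFun (Fin 5) ℝ).toBasis.span_eq, Submodule.span_le]
  rintro _ ⟨i, rfl⟩
  have h1 : pt i.castSucc.castSucc.castSucc.castSucc.castSucc -ᵥ pt 5 ∈
      vectorSpan ℝ (range pt) := vsub_mem_vectorSpan ℝ ⟨_, rfl⟩ ⟨_, rfl⟩
  have h2 : (EuclideanSpace.basisFun (Fin 5) ℝ).toBasis i =
      (1 / 14 : ℝ) • (pt i.castSucc.castSucc.castSucc.castSucc.castSucc -ᵥ pt 5) := by
    ext j
    fin_cases i <;> fin_cases j <;> simp [pt, pts]
  rw [h2]
  exact Submodule.smul_mem _ _ h1

lemma realizable_five : Realizable 5 G := by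
  classical
  refine ⟨5, convexHull ℝ (range pt), ⟨⟨Finset.univ.image pt, by simp⟩, ?_, ?_⟩, ?_⟩
  · exact ⟨pt 0, subset_convexHull ℝ _ ⟨0, rfl⟩⟩
  · rw [span_top, finrank_top, finrank_euclideanSpace_fin]
  · have hext := extremePoints_eq pt exp_pt
    let e0 : Fin 10 → (convexHull ℝ (range pt)).extremePoints ℝ :=
      fun v => ⟨pt v, by rw [hext]; exact ⟨v, rfl⟩⟩
    have hbij : Function.Bijective e0 := by
      constructor
      · intro v w h
        exact exp_pt.injective (congrArg Subtype.val h)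
      · rintro ⟨x, hx⟩
        have hx' := hx
        rw [hext] at hx'
        obtain ⟨v, rfl⟩ := hx'
        exact ⟨v, rfl⟩
    refine ⟨⟨Equiv.ofBijective e0 hbij, ?_⟩⟩
    intro v w
    change (e0 v ≠ e0 w ∧ IsExposed ℝ _ (segment ℝ (pt v) (pt w))) ↔ adjB v w = true
    constructor
    · rintro ⟨hne, h⟩
      have hvw : v ≠ w := fun h' => hne (by rw [h'])
      exact (dedge_iff v w hvw).1 (dedge_of_isExposed pt exp_pt v w hvw h)
    · intro h
      have hvw : v ≠ w := by
        rintro rfl
        have hdec : ∀ v, adjB v v = false := by decide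
        rw [hdec v] at h
        exact Bool.false_ne_true h
      exact ⟨fun h' => hvw (hbij.1 h'),
        isExposed_of_dedge pt v w ((dedge_iff v w hvw).2 h)⟩

/-- **Q1 has a positive answer**: there is a graph with 10 vertices that is 5-realizable and
dimensionally unambiguous. -/
theorem result : ∃ G : SimpleGraph (Fin 10), Unambiguous 5 G :=
  ⟨G, realizable_five, fun d hd h => hd (dim_eq_five d h)⟩

end Pool.Agent.Results.MP_2aa405_co.TenVertices
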